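import Pool.Agent.Helper24.HomLatin2
import Pool.Agent.Helper24.LatinDefs

/-!
# The spectrum of homogeneous latin squares in the range `n ≥ 8 (k - 1)`

All pairs `(n, k)` with `n ≥ 8 (k - 1)` for which there is an `(n - k)`-homogeneous latin square of
order `n` are determined: `k = 1` and `n` is a power of `2`, or `k = 2 ^ j + 1` and `n = 8 * 2 ^ j`
with `j ≥ 1`. In particular, for every fixed `k ≥ 2` only finitely many orders are possible, and
`n ≤ 8 (k - 1)` is a sharp bound.
-/

set_option autoImplicit false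

open Finset

namespace Pool.Agent.Results.MP_3713ea_co.LargeOrders

/-- latin squares: the rows and the columns have pairwise distinct entries -/
def IsLatin {n : ℕ} (L : Fin n → Fin n → Fin n) : Prop :=
  (∀ r, Function.Injective (L r)) ∧ ∀ c, Function.Injective fun r => L r c

/-- the intercalates through the cell `(r, c)`, each given by its opposite corner `(r', c')` -/
def intercalatesAt {n : ℕ} (L : Fin n → Fin n → Fin n) (r c : Fin n) : Finset (Fin n × Fin n) :=
  univ.filter fun p => p.1 ≠ r ∧ p.2 ≠ c ∧ L r c = L p.1 p.2 ∧ L r p.2 = L p.1 c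

/-- every cell of `L` lies in exactly `h` intercalates -/
def IsHomogeneous {n : ℕ} (h : ℕ) (L : Fin n → Fin n → Fin n) : Prop :=
  ∀ r c, (intercalatesAt L r c).card = h

/-- there is an `h`-homogeneous latin square of order `n` -/
def Attained (n h : ℕ) : Prop :=
  ∃ L : Fin n → Fin n → Fin n, IsLatin L ∧ IsHomogeneous h L

section bridge

open Pool.Agent.Helper24.HomLatin Pool.Agent.Helper24.LatinDefs

/-- the rows as permutations -/
noncomputable def rows {n : ℕ} (L : Fin n → Fin n → Fin n) (hL : IsLatin L) (r : Fin n) :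
    Equiv.Perm (Fin n) :=
  Equiv.ofBijective (L r) (Finite.injective_iff_bijective.mp (hL.1 r))

theorem rows_apply {n : ℕ} (L : Fin n → Fin n → Fin n) (hL : IsLatin L) (r c : Fin n) :
    rows L hL r c = L r c := rfl

theorem sharp_rows {n : ℕ} (L : Fin n → Fin n → Fin n) (hL : IsLatin L) :
    Sharp (rows L hL) := fun c => hL.2 c

theorem card_D {n : ℕ} (L : Fin n → Fin n → Fin n) (hL : IsLatin L) (i c : Fin n) :
    (D (rows L hL) i (L i c)).card + ((intercalatesAt L i c).card + 1) = n := by
  set e := rows L hL with he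
  set s := L i c with hs
  have hP : ∀ r, P e i r s = L r c := by
    intro r
    show e r ((e i)⁻¹ s) = L r c
    have : (e i)⁻¹ s = c := by
      rw [Equiv.Perm.inv_eq_iff_eq]
      rfl
    rw [this]
    rfl
  have h1 : (univ.filter fun r => ¬ P e i r (P e i r s) ≠ s).card = (intercalatesAt L i c).card + 1 := by
    have h2 : (univ.filter fun r => ¬ P e i r (P e i r s) ≠ s) =
        insert i ((intercalatesAt L i c).image Prod.fst) := by
      ext r
      simp only [mem_filter, mem_univ, true_and, not_not, mem_insert, mem_image, intercalatesAt,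
        Prod.exists, exists_and_right, exists_eq_right]
      constructor
      · intro hr
        by_cases hri : r = i
        · exact Or.inl hri
        · right
          refine ⟨(e i)⁻¹ (L r c), hri, ?_, ?_, ?_⟩
          · intro h
            rw [Equiv.Perm.inv_eq_iff_eq] at h
            exact hri (hL.2 c h)
          · rw [hP] at hr
            exact hr.symm
          · exact ap_inv (e i) (L r c)
      · rintro (rfl | ⟨c', hri, hc', h3, h4⟩)
        · rw [P_self]; rfl
        · rw [hP]
          show e r ((e i)⁻¹ (L r c)) = s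
          have : (e i)⁻¹ (L r c) = c' := by
            rw [Equiv.Perm.inv_eq_iff_eq]
            exact h4.symm
          rw [this]
          exact h3.symm
    rw [h2, card_insert_of_notMem, card_image_of_injOn]
    · intro p hp q hq hpq
      simp only [intercalatesAt, coe_filter, mem_univ, true_and, Set.mem_ofPred_eq] at hp hq
      refine Prod.ext hpq (hL.1 i ?_)
      rw [hp.2.2.2, hq.2.2.2, hpq]
    · rw [mem_image]
      rintro ⟨p, hp, hpi⟩
      simp only [intercalatesAt, mem_filter, mem_univ, true_and] at hp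
      exact hp.1 hpi
  rw [← h1]
  have h3 := card_filter_add_card_filter_not (s := (univ : Finset (Fin n)))
    (fun r => P e i r (P e i r s) ≠ s)
  rw [card_univ, Fintype.card_fin] at h3
  exact h3

theorem attained_of_hom {α : Type} [Fintype α] [DecidableEq α] {L : α → α → α} {n h : ℕ}
    (hL : Hom L (h + 1)) (hα : Fintype.card α = n) : Attained n h := by
  subst hα
  have h1 := hL.transport (Fintype.equivFin α)
  set M := fun x y : Fin (Fintype.card α) =>
    (Fintype.equivFin α) (L ((Fintype.equivFin α).symm x) ((Fintype.equivFin α).symm y)) with hM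
  refine ⟨M, h1.1, fun r c => ?_⟩
  have h2 := h1.2 r c
  have h3 : full M r c = insert (r, c) (intercalatesAt M r c) := by
    ext ⟨r', c'⟩
    simp only [full, intercalatesAt, mem_filter, mem_univ, true_and, mem_insert, Prod.mk.injEq]
    constructor
    · rintro ⟨h4, h5⟩
      by_cases hr : r' = r
      · subst hr
        exact Or.inl ⟨rfl, (h1.1.1 r' h4).symm⟩
      · refine Or.inr ⟨hr, fun hc => hr ?_, h4, h5⟩
        subst hc
        exact (h1.1.2 c' h4).symm
    · rintro (⟨rfl, rfl⟩ | ⟨-, -, h4, h5⟩)
      · exact ⟨rfl, rfl⟩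
      · exact ⟨h4, h5⟩
  rw [h3, card_insert_of_notMem] at h2
  · exact Nat.succ_injective h2
  · simp [intercalatesAt]

theorem hom_pow (m : ℕ) : ∃ (α : Type) (_ : Fintype α) (_ : DecidableEq α) (L : α → α → α),
    Hom L (2 ^ m) ∧ Fintype.card α = 2 ^ m := by
  induction m with
  | zero => exact ⟨Fin 1, inferInstance, inferInstance, _, hom_one, rfl⟩
  | succ m ih =>
    obtain ⟨α, _, _, L, hL, hc⟩ := ih
    refine ⟨α × Fin 2, inferInstance, inferInstance,
      fun (x y : α × Fin 2) => (L x.1 y.1, x.2 + y.2), ?_, ?_⟩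
    · rw [pow_succ]
      exact hL.prod hom_two
    · rw [Fintype.card_prod, hc, Fintype.card_fin, pow_succ]

end bridge

/-- For `1 ≤ k ≤ n` and `n ≥ 8 (k - 1)` there is an `(n - k)`-homogeneous latin square of order `n`
if and only if `k = 1` and `n` is a power of `2`, or `k = 2 ^ j + 1` and `n = 8 * 2 ^ j` for some
`j ≥ 1`. -/
theorem result (n k : ℕ) (hk : 1 ≤ k) (hkn : k ≤ n) (hn : 8 * (k - 1) ≤ n) :
    Attained n (n - k) ↔
      (k = 1 ∧ ∃ m, n = 2 ^ m) ∨ ∃ j, 1 ≤ j ∧ k = 2 ^ j + 1 ∧ n = 8 * 2 ^ j := by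
  constructor
  · rintro ⟨L, hL, hh⟩
    have hne : Nonempty (Fin n) := ⟨⟨0, by omega⟩⟩
    have hD : ∀ i s, (Pool.Agent.Helper24.HomLatin.D (rows L hL) i s).card = k - 1 := by
      intro i s
      obtain ⟨c, rfl⟩ := (rows L hL i).surjective s
      have h1 := card_D L hL i c
      rw [hh i c] at h1
      rw [rows_apply]
      omega
    have h2 := Pool.Agent.Helper24.HomLatin.classification (sharp_rows L hL) hD
      (by rw [Fintype.card_fin]; exact hn)
    rw [Fintype.card_fin] at h2
    rcases h2 with ⟨h3, m, hm⟩ | ⟨j, hj, h3, h4⟩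
    · exact Or.inl ⟨by omega, m, hm⟩
    · exact Or.inr ⟨j, hj, by omega, h4⟩
  · rintro (⟨rfl, m, rfl⟩ | ⟨j, hj, rfl, rfl⟩)
    · obtain ⟨α, _, _, L, hL, hc⟩ := hom_pow m
      have : 1 ≤ 2 ^ m := Nat.one_le_two_pow
      refine attained_of_hom (L := L) ?_ hc
      rwa [Nat.sub_add_cancel this]
    · obtain ⟨α, _, _, L, hL, hc⟩ := hom_pow (j - 1)
      obtain ⟨i, rfl⟩ : ∃ i, j = i + 1 := ⟨j - 1, by omega⟩
      rw [Nat.add_sub_cancel] at hL hc
      have h1 := hL.prod (M := Pool.Agent.Helper24.LatinDefs.L16) (b := 14)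
        ⟨Pool.Agent.Helper24.LatinDefs.lat16, Pool.Agent.Helper24.LatinDefs.hom16⟩
      have h2 : 2 ^ i * 14 = 8 * 2 ^ (i + 1) - (2 ^ (i + 1) + 1) + 1 := by
        rw [pow_succ]
        have : 1 ≤ 2 ^ i := Nat.one_le_two_pow
        omega
      rw [h2] at h1
      refine attained_of_hom h1 ?_
      rw [Fintype.card_prod, hc, Fintype.card_fin, pow_succ]
      ring

end Pool.Agent.Results.MP_3713ea_co.LargeOrders
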